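import Pool.Agent.E8helper23.SG.Stm
import Pool.Agent.Erdos456.LBound
import Pool.Agent.E8helper63.SZ.Zero

/-! Project SG, piece TAIL. -/

set_option autoImplicit false

namespace Pool.Agent.E8helper71.SG

open Finset
open Pool.Agent.E8helper22.SZ (RealPrim cv tau)
open Pool.Agent.E8helper23.SG
open Pool.Agent.Erdos456 (norm_interval_le abel_bound)

theorem t_TAIL : S_TAIL := by
  intro q _ χ hq h β hβ1 hβ2
  have hχ : χ ≠ 1 := Pool.Agent.E8helper63.SZ.ne_one hq h
  have hq0 : (0 : ℝ) ≤ q := Nat.cast_nonneg _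
  have hβ0 : 0 < β := by linarith
  constructor
  · intro A B hA
    have hA0 : (0 : ℝ) < A := by exact_mod_cast hA
    rcases le_total B A with hBA | hAB
    · rw [Finset.Ioc_eq_empty_of_le hBA, Finset.sum_empty, abs_zero]
      positivity
    · obtain ⟨n, rfl⟩ := Nat.exists_eq_add_of_le hAB
      have e1 : ∑ d ∈ Ioc A (A + n), cv χ d * (d : ℝ) ^ (-β) =
          (∑ i ∈ range n, χ ((A + 1 + i : ℕ) : ZMod q) *
            (((((A + 1 + i : ℕ) : ℝ) ^ (-β) : ℝ)) : ℂ)).re := by
        rw [Complex.re_sum]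
        have e2 : Ioc A (A + n) = Ico (A + 1) (A + 1 + n) := by
          ext x
          simp only [Finset.mem_Ioc, Finset.mem_Ico]
          omega
        rw [e2, Finset.sum_Ico_eq_sum_range, Nat.add_sub_cancel_left]
        apply Finset.sum_congr rfl
        intro i _
        rw [Complex.re_mul_ofReal]
        rfl
      rw [e1]
      refine (Complex.abs_re_le_norm _).trans ?_
      have e3 := abel_bound (fun i => χ ((A + 1 + i : ℕ) : ZMod q)) (2 * q)
        (norm_interval_le χ hχ (A + 1))
        (fun i => ((A + 1 + i : ℕ) : ℝ) ^ (-β)) (by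
          intro a b hab
          apply Real.rpow_le_rpow_of_nonpos (by positivity) (by exact_mod_cast (by omega))
            (by linarith))
        (fun n => by positivity) n
      refine e3.trans ?_
      refine mul_le_mul_of_nonneg_left ?_ (by positivity)
      apply Real.rpow_le_rpow_of_nonpos hA0 _ (by linarith)
      exact_mod_cast (by omega)
  · intro D hD
    have hD0 : (0 : ℝ) < D := by exact_mod_cast hD
    have hre : 0 < ((β : ℝ) : ℂ).re := by simpa using hβ0
    have e1 := Pool.Agent.H307R2.LFunction_eq hχ (N := D) hD hre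
    have e2 : ∑ d ∈ Icc 1 D, cv χ d * (d : ℝ) ^ (-β) =
        (∑ n ∈ Finset.Icc 1 D, χ (n : ZMod q) * (n : ℂ) ^ (-(β : ℂ))).re := by
      rw [Complex.re_sum]
      apply Finset.sum_congr rfl
      intro n _
      have e3 : (n : ℂ) ^ (-(β : ℂ)) = (((n : ℝ) ^ (-β) : ℝ) : ℂ) := by
        rw [Complex.ofReal_cpow (Nat.cast_nonneg _)]
        push_cast
        rfl
      rw [e3, Complex.re_mul_ofReal]
      rfl
    have e4 : ∑ d ∈ Icc 1 D, cv χ d * (d : ℝ) ^ (-β) - (χ.LFunction β).re =
        (-((β : ℂ) * Pool.Agent.H307R2.TM D (Pool.Agent.H307R2.Ech χ D) (β : ℂ))).re := by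
      rw [e2, e1, Complex.add_re, Complex.neg_re]
      ring
    rw [e4]
    refine (Complex.abs_re_le_norm _).trans ?_
    rw [norm_neg, norm_mul, Complex.norm_real, Real.norm_of_nonneg hβ0.le]
    have e5 := Pool.Agent.H307R2.TM_norm_le (N := D) hD (Pool.Agent.H307R2.Ech_norm_le hχ D) hre
    rw [Complex.ofReal_re] at e5
    calc β * ‖Pool.Agent.H307R2.TM D (Pool.Agent.H307R2.Ech χ D) (β : ℂ)‖ ≤
        β * (q * ((D : ℝ) ^ (-β) / β)) := mul_le_mul_of_nonneg_left e5 hβ0.le
      _ = q * (D : ℝ) ^ (-β) := by field_simp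
      _ ≤ 2 * q * (D : ℝ) ^ (-β) := by
          refine mul_le_mul_of_nonneg_right (by linarith) (by positivity)

end Pool.Agent.E8helper71.SG
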